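import Pool.Graph.R_pool_sql_team_seeded_3997aac3.Q274.FI.Graph
import Pool.Graph.R_pool_sql_team_seeded_3997aac3.Q274.FI.Deg

/-!
# Rooted irregular graphs of all large orders
-/

set_option autoImplicit false

namespace Pool.Agent.H81.RI

open Finset Pool.Agent.Q274.FI

open scoped Classical

/-- `F` is a star with centre `r`. -/
def Star {V : Type} (F : SimpleGraph V) (r : V) : Prop :=
  ∀ a b, F.Adj a b ↔ a ≠ b ∧ (a = r ∨ b = r)

/-- rooted numbers of copies are different and at least `L` for all patterns with at most `n`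
vertices -/
def Inj (n L : ℕ) {W : Type} [Fintype W] (G : SimpleGraph W) : Prop :=
  ∀ (V : Type) [Fintype V] (F : SimpleGraph V), F.Connected → 3 ≤ Fintype.card V →
    Fintype.card V ≤ n → ∀ r : V, ¬ Star F r →
      Function.Injective (fun w => (Emb F G r w).card) ∧ ∀ w, L ≤ (Emb F G r w).card

section

variable {V W W' : Type} [Fintype V] [Fintype W] [Fintype W']

omit [Fintype V] [Fintype W] [Fintype W'] in
theorem side {F : SimpleGraph V} {G : SimpleGraph W} {H : SimpleGraph W'} (hF : F.Connected)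
    {φ : V → W ⊕ W'} (h : ∀ a b, F.Adj a b → (G ⊕g H).Adj (φ a) (φ b)) (x y : V) :
    (φ x).isLeft = (φ y).isLeft := by
  obtain ⟨p⟩ := hF.preconnected x y
  induction p with
  | nil => rfl
  | @cons u v _ hadj _ ih =>
    refine Eq.trans ?_ ih
    have h1 := h u v hadj
    rcases hu : φ u with a | a <;> rcases hv : φ v with b | b <;> rw [hu, hv] at h1
    · rfl
    · simp at h1
    · simp at h1
    · rfl

theorem emb_inl {F : SimpleGraph V} (hF : F.Connected) (r : V) (G : SimpleGraph W)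
    (H : SimpleGraph W') (v : W) :
    (Emb F (G ⊕g H) r (Sum.inl v)).card = (Emb F G r v).card := by
  symm
  refine Finset.card_bij (fun ψ _ => fun a => (Sum.inl (ψ a) : W ⊕ W')) ?_ ?_ ?_
  · intro ψ hψ
    rw [mem_Emb] at hψ ⊢
    obtain ⟨h1, h2, h3⟩ := hψ
    refine ⟨by rw [h1], fun a b hab => h2 (Sum.inl_injective hab), fun a b hab => h3 a b hab⟩
  · intro ψ _ ψ' _ he
    funext a
    exact Sum.inl_injective (congrFun he a)
  · intro φ hφ
    rw [mem_Emb] at hφ
    obtain ⟨h1, h2, h3⟩ := hφ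
    have hl : ∀ x, (φ x).isLeft = true := by
      intro x
      rw [side hF h3 x r, h1]
      rfl
    choose ψ hψ using fun x => Sum.isLeft_iff.1 (hl x)
    refine ⟨ψ, ?_, ?_⟩
    · rw [mem_Emb]
      refine ⟨?_, ?_, ?_⟩
      · rw [hψ] at h1
        exact Sum.inl_injective h1
      · intro a b hab
        apply h2
        rw [hψ, hψ, hab]
      · intro a b hab
        have := h3 a b hab
        rw [hψ, hψ] at this
        exact this
    · funext x
      exact (hψ x).symm

theorem emb_inr {F : SimpleGraph V} (hF : F.Connected) (r : V) (G : SimpleGraph W)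
    (H : SimpleGraph W') (v : W') :
    (Emb F (G ⊕g H) r (Sum.inr v)).card = (Emb F H r v).card := by
  symm
  refine Finset.card_bij (fun ψ _ => fun a => (Sum.inr (ψ a) : W ⊕ W')) ?_ ?_ ?_
  · intro ψ hψ
    rw [mem_Emb] at hψ ⊢
    obtain ⟨h1, h2, h3⟩ := hψ
    refine ⟨by rw [h1], fun a b hab => h2 (Sum.inr_injective hab), fun a b hab => h3 a b hab⟩
  · intro ψ _ ψ' _ he
    funext a
    exact Sum.inr_injective (congrFun he a)
  · intro φ hφ
    rw [mem_Emb] at hφ
    obtain ⟨h1, h2, h3⟩ := hφ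
    have hl : ∀ x, (φ x).isRight = true := by
      intro x
      have h4 := side hF h3 x r
      rw [h1] at h4
      rcases hx : φ x with u | u
      · rw [hx] at h4
        cases h4
      · rfl
    choose ψ hψ using fun x => Sum.isRight_iff.1 (hl x)
    refine ⟨ψ, ?_, ?_⟩
    · rw [mem_Emb]
      refine ⟨?_, ?_, ?_⟩
      · rw [hψ] at h1
        exact Sum.inr_injective h1
      · intro a b hab
        apply h2
        rw [hψ, hψ, hab]
      · intro a b hab
        have := h3 a b hab
        rw [hψ, hψ] at this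
        exact this
    · funext x
      exact (hψ x).symm

theorem emb_iso (F : SimpleGraph V) (r : V) {G : SimpleGraph W} {H : SimpleGraph W'}
    (e : G ≃g H) (v : W) : (Emb F H r (e v)).card = (Emb F G r v).card := by
  symm
  refine Finset.card_bij (fun ψ _ => fun a => e (ψ a)) ?_ ?_ ?_
  · intro ψ hψ
    rw [mem_Emb] at hψ ⊢
    obtain ⟨h1, h2, h3⟩ := hψ
    refine ⟨by rw [h1], fun a b hab => h2 (e.injective hab), fun a b hab =>
      e.map_adj_iff.2 (h3 a b hab)⟩
  · intro ψ _ ψ' _ he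
    funext a
    exact e.injective (congrFun he a)
  · intro φ hφ
    rw [mem_Emb] at hφ
    obtain ⟨h1, h2, h3⟩ := hφ
    refine ⟨fun a => e.symm (φ a), ?_, ?_⟩
    · rw [mem_Emb]
      refine ⟨by rw [h1, e.symm_apply_apply], fun a b hab => h2 (e.symm.injective hab),
        fun a b hab => e.symm.map_adj_iff.2 (h3 a b hab)⟩
    · funext a
      exact e.apply_symm_apply _

theorem apex_ge {G : SimpleGraph W} {y : W} {R : ℕ} {ι : Fin (2 * R) → W} (hG : Block G y R ι)
    (hR : 0 < R) (F : SimpleGraph V) (r : V) :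
    R.descFactorial (Fintype.card V - 1) ≤ (Emb F G r y).card :=
  (hG.le_card_apex hR F r).trans (card_le_card (filter_subset _ _))

theorem emb_le (F : SimpleGraph V) (r : V) (G : SimpleGraph W) (v : W) :
    (Emb F G r v).card ≤ Fintype.card W ^ (Fintype.card V - 1) := by
  have := card_le_fixed (Emb F G r v) ({r} : Finset V) (fun _ => v) (by
    intro φ hφ a ha
    rw [mem_singleton] at ha
    rw [ha]
    exact (mem_Emb.1 hφ).1)
  rwa [card_singleton] at this

end

theorem Inj.mono {n L L' : ℕ} {W : Type} [Fintype W] {G : SimpleGraph W} (h : Inj n L G)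
    (hL : L' ≤ L) : Inj n L' G := by
  intro V _ F hF h3 hn r hr
  obtain ⟨h1, h2⟩ := h V F hF h3 hn r hr
  exact ⟨h1, fun w => hL.trans (h2 w)⟩

theorem Inj.iso {n L : ℕ} {W W' : Type} [Fintype W] [Fintype W'] {G : SimpleGraph W}
    {H : SimpleGraph W'} (h : Inj n L G) (e : G ≃g H) : Inj n L H := by
  intro V _ F hF h3 hn r hr
  obtain ⟨h1, h2⟩ := h V F hF h3 hn r hr
  have key : ∀ w, (Emb F H r w).card = (Emb F G r (e.symm w)).card := by
    intro w
    rw [← emb_iso F r e (e.symm w), e.apply_symm_apply]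
  refine ⟨fun w w' hw => ?_, fun w => ?_⟩
  · simp only at hw
    rw [key, key] at hw
    exact e.symm.injective (h1 hw)
  · rw [key]
    exact h2 _

theorem Inj.sum {n L U : ℕ} {W W' : Type} [Fintype W] [Fintype W'] {G : SimpleGraph W}
    {H : SimpleGraph W'} (h : Inj n U G) (h' : Inj n L H) (hU : Fintype.card W' ^ n < U)
    (hL : L ≤ U) : Inj n L (G ⊕g H) := by
  intro V _ F hF h3 hn r hr
  obtain ⟨h1, h2⟩ := h V F hF h3 hn r hr
  obtain ⟨h1', h2'⟩ := h' V F hF h3 hn r hr
  have hlt : ∀ w : W', (Emb F H r w).card < U := by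
    intro w
    have hpos : 0 < Fintype.card W' := Fintype.card_pos_iff.2 ⟨w⟩
    refine lt_of_le_of_lt ((emb_le F r H w).trans ?_) hU
    exact Nat.pow_le_pow_right hpos (by omega)
  refine ⟨?_, ?_⟩
  · rintro (w | w) (w' | w') hw <;> simp only at hw
    · rw [emb_inl hF, emb_inl hF] at hw
      rw [h1 hw]
    · rw [emb_inl hF, emb_inr hF] at hw
      have := h2 w
      have := hlt w'
      omega
    · rw [emb_inl hF, emb_inr hF] at hw
      have := h2 w'
      have := hlt w
      omega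
    · rw [emb_inr hF, emb_inr hF] at hw
      rw [h1' hw]
  · rintro (w | w)
    · rw [emb_inl hF]
      exact hL.trans (h2 w)
    · rw [emb_inr hF]
      exact h2' w

/-- there is a graph with `m` vertices -/
def Good (n m L : ℕ) : Prop := ∃ G : SimpleGraph (Fin m), Inj n L G

theorem good_add {n m₁ m₂ L U : ℕ} (h : Good n m₁ U) (h' : Good n m₂ L) (hU : m₂ ^ n < U)
    (hL : L ≤ U) : Good n (m₁ + m₂) L := by
  obtain ⟨G, hG⟩ := h
  obtain ⟨H, hH⟩ := h'
  have hs := hG.sum hH (by rwa [Fintype.card_fin]) hL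
  have hcard : Fintype.card (Fin m₁ ⊕ Fin m₂) = m₁ + m₂ := by simp
  exact ⟨_, hs.iso (SimpleGraph.overFinIso (G ⊕g H) hcard)⟩

theorem good_base (n L q : ℕ) (hq : n ^ 4 * 40 ^ n < q) (hL : L ≤ q) :
    Good n (36 * q + 1) L := by
  obtain ⟨G, y, ι, κ, hT⟩ := exists_two q
  refine ⟨G, ?_⟩
  intro V _ F hF h3 hn r hr
  have h1 : Fintype.card V ^ 4 * 40 ^ Fintype.card V ≤ n ^ 4 * 40 ^ n :=
    Nat.mul_le_mul (Nat.pow_le_pow_left hn 4) (Nat.pow_le_pow_right (by norm_num) hn)
  have hinj := hT.injective hF h3 r hr (by omega)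
  refine ⟨hinj, ?_⟩
  have hVq : Fintype.card V < q := by
    have e1 : Fintype.card V ≤ Fintype.card V ^ 4 * 40 ^ Fintype.card V := by
      calc Fintype.card V ≤ Fintype.card V ^ 4 := Nat.le_self_pow (by norm_num) _
        _ = Fintype.card V ^ 4 * 1 := by ring
        _ ≤ _ := Nat.mul_le_mul_left _ (Nat.one_le_pow _ _ (by norm_num))
    omega
  have hb : ∀ R, 2 * q ≤ R → q ≤ (R - 1).descFactorial (Fintype.card V - 1) := by
    intro R hR
    have h5 := desc_bound (R - 1) q (Fintype.card V - 1) (by omega)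
    exact (Nat.le_self_pow (by omega) q).trans h5
  intro w
  refine hL.trans ?_
  rcases hT.all w with rfl | ⟨x, rfl⟩ | ⟨x, rfl⟩
  · have h2 := apex_ge hT.Q (by omega) F r
    have h5 := hb (2 * q) le_rfl
    have h6 : (2 * q - 1).descFactorial (Fintype.card V - 1) ≤
        (2 * q).descFactorial (Fintype.card V - 1) := Nat.descFactorial_le _ (by omega)
    omega
  · exact (hb _ (by omega)).trans (hT.P.le_card F r x)
  · exact (hb _ le_rfl).trans (hT.Q.le_card F r x)

theorem good_all (n : ℕ) : ∀ j L, ∃ N, ∀ q, N ≤ q → Good n (36 * q + (j + 1)) L := by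
  intro j
  induction j with
  | zero =>
    intro L
    refine ⟨n ^ 4 * 40 ^ n + 1 + L, fun q hq => ?_⟩
    exact good_base n L q (by omega) (by omega)
  | succ j ih =>
    intro L
    set q₁ := n ^ 4 * 40 ^ n + 1 + L with hq₁
    have hH := good_base n L q₁ (by omega) (by omega)
    obtain ⟨N, hN⟩ := ih ((36 * q₁ + 1) ^ n + 1 + L)
    refine ⟨N + q₁, fun q hq => ?_⟩
    have h := good_add (hN (q - q₁) (by omega)) hH (by omega) (by omega)
    have he : 36 * (q - q₁) + (j + 1) + (36 * q₁ + 1) = 36 * q + (j + 1 + 1) := by omega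
    rwa [he] at h

/-! ### Many graphs -/

/-- the path with three vertices -/
abbrev P : SimpleGraph (Fin 3) := SimpleGraph.pathGraph 3

theorem P_conn : P.Connected := SimpleGraph.pathGraph_connected 2

theorem P_star : ¬ Star P 0 := by
  intro h
  have h1 := (h 1 2).1 (by
    rw [SimpleGraph.pathGraph_adj]
    left
    rfl)
  rcases h1.2 with h2 | h2 <;> exact absurd h2 (by decide)

/-- the number of the vertices with few copies of `P` -/
noncomputable def few (U : ℕ) {W : Type} [Fintype W] (G : SimpleGraph W) : ℕ :=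
  Nat.card {w // (Emb P G 0 w).card < U}

theorem few_iso (U : ℕ) {W W' : Type} [Fintype W] [Fintype W'] {G : SimpleGraph W}
    {H : SimpleGraph W'} (e : G ≃g H) : few U G = few U H := by
  unfold few
  refine Nat.card_congr (e.toEquiv.subtypeEquiv fun w => ?_)
  show _ ↔ (Emb P H 0 (e w)).card < U
  rw [emb_iso]

theorem few_sum {n U : ℕ} (hn : 3 ≤ n) {W W' : Type} [Fintype W] [Fintype W']
    {G : SimpleGraph W} {H : SimpleGraph W'} (h : Inj n U G)
    (hU : Fintype.card W' ^ n < U) : few U (G ⊕g H) = Fintype.card W' := by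
  have h2 := (h (Fin 3) P P_conn (by simp) (by simpa using hn) 0 P_star).2
  have hlt : ∀ w : W', (Emb P H 0 w).card < U := by
    intro w
    have hpos : 0 < Fintype.card W' := Fintype.card_pos_iff.2 ⟨w⟩
    refine lt_of_le_of_lt ((emb_le P 0 H w).trans ?_) hU
    refine Nat.pow_le_pow_right hpos ?_
    rw [Fintype.card_fin]
    omega
  unfold few
  rw [← Nat.card_eq_fintype_card]
  refine (Nat.card_eq_of_bijective (fun w : W' => (⟨Sum.inr w, by
    rw [emb_inr P_conn]
    exact hlt w⟩ : {v // (Emb P (G ⊕g H) 0 v).card < U})) ⟨?_, ?_⟩).symm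
  · intro w w' hw
    exact Sum.inr_injective (congrArg Subtype.val hw)
  · rintro ⟨v | w, hv⟩
    · exfalso
      rw [emb_inl P_conn] at hv
      have := h2 v
      omega
    · exact ⟨w, rfl⟩

theorem main (n K : ℕ) (hn : 3 ≤ n) : ∃ m₀, ∀ m, m₀ ≤ m → ∃ G : Fin K → SimpleGraph (Fin m),
    (∀ i j, i ≠ j → ¬ Nonempty (G i ≃g G j)) ∧ ∀ i, Inj n 0 (G i) := by
  set q₁ := n ^ 4 * 40 ^ n + 1 with hq₁
  set U := (36 * (q₁ + K) + 1) ^ n + 1 with hU
  have hall : ∀ j : Fin 36, ∃ N, ∀ q, N ≤ q → Good n (36 * q + (j + 1)) U :=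
    fun j => good_all n j U
  choose N hN using hall
  refine ⟨36 * ((∑ j, N j) + q₁ + K) + 37, fun m hm => ?_⟩
  obtain ⟨j, hj⟩ : ∃ j : Fin 36, (j : ℕ) = (m - 2) % 36 :=
    ⟨⟨(m - 2) % 36, Nat.mod_lt _ (by norm_num)⟩, rfl⟩
  have hNj : N j ≤ ∑ j, N j :=
    Finset.single_le_sum (f := fun j => N j) (fun _ _ => Nat.zero_le _) (Finset.mem_univ j)
  have hT : ∀ i : Fin K, ∃ G : SimpleGraph (Fin m), Inj n 0 G ∧
      few U G = 36 * (q₁ + i) + 1 := by
    intro i
    have hi := i.2
    obtain ⟨q, hq⟩ : ∃ q, m = (36 * q + (j + 1)) + (36 * (q₁ + i) + 1) :=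
      ⟨(m - 2) / 36 - (q₁ + i), by omega⟩
    obtain ⟨G, hG⟩ := hN j q (by omega)
    obtain ⟨H, hH⟩ := good_base n 0 (q₁ + i) (by omega) (by omega)
    have hcU : Fintype.card (Fin (36 * (q₁ + i) + 1)) ^ n < U := by
      rw [Fintype.card_fin, hU]
      have : (36 * (q₁ + (i : ℕ)) + 1) ^ n ≤ (36 * (q₁ + K) + 1) ^ n :=
        Nat.pow_le_pow_left (by omega) n
      omega
    have hs := hG.sum hH hcU (by omega)
    have hf := few_sum hn (H := H) hG hcU
    rw [Fintype.card_fin] at hf
    have hcard : Fintype.card (Fin (36 * q + (j + 1)) ⊕ Fin (36 * (q₁ + i) + 1)) = m := by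
      simp only [Fintype.card_sum, Fintype.card_fin]
      exact hq.symm
    refine ⟨_, hs.iso (SimpleGraph.overFinIso (G ⊕g H) hcard), ?_⟩
    rw [← few_iso U (SimpleGraph.overFinIso (G ⊕g H) hcard), hf]
  choose G hG1 hG2 using hT
  refine ⟨G, ?_, hG1⟩
  rintro i j hij ⟨e⟩
  apply hij
  have h := few_iso U e
  rw [hG2, hG2] at h
  exact Fin.ext (by omega)

end Pool.Agent.H81.RI
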